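import Pool.Agent.BDC.Main

/-!
# The broadcast domination number of chordal graphs in quadratic time

The machine model is in `Pool/Agent/BDC/Lang.lean` (`Instr`, `Cfg`, `exec`, `step`, `runs`,
`Halted`), the definitions about graphs are in `Pool/Agent/BDC/Basic.lean` (`Chordal`, `ecc`,
`IsDomBroadcast`, `gammaB`).
-/

namespace Pool.Agent.Results.MP_a3b01d_lc.QuadraticBroadcast

open Pool.Agent.BDC

/-- `s` is the initial configuration of the machine on the input `G`, a graph with vertices
`0, …, n - 1`: the program counter is `0`, register `0` contains `n`, the other registers are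
zero, memory cell `i * n + j` contains `1` if `i` and `j` are adjacent and `0` otherwise
(`i, j < n`: the adjacency matrix), the other memory cells are zero. -/
structure IsInput {n : ℕ} (G : SimpleGraph (Fin n)) (s : Cfg) : Prop where
  pc : s.pc = 0
  reg_zero : s.reg 0 = n
  reg_ne : ∀ a, a ≠ 0 → s.reg a = 0
  mem_adj : ∀ i j : Fin n, G.Adj i j → s.mem ((i : ℕ) * n + j) = 1
  mem_not_adj : ∀ i j : Fin n, ¬ G.Adj i j → s.mem ((i : ℕ) * n + j) = 0
  mem_rest : ∀ x, n * n ≤ x → s.mem x = 0

lemma IsInput.eq_init {n : ℕ} (hn : 0 < n) {G : SimpleGraph (Fin n)} {s : Cfg}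
    (h : IsInput G s) : s = initCfg n (gm G) := by
  apply Cfg.ext
  · exact h.pc
  · funext a
    simp only [initCfg]
    split_ifs with ha
    · rw [ha]; exact h.reg_zero
    · exact h.reg_ne a ha
  · funext x
    simp only [initCfg]
    split_ifs with hx
    · have h1 : x / n < n := Nat.div_lt_of_lt_mul hx
      have h2 : x % n < n := Nat.mod_lt _ hn
      have h3 : x / n * n + x % n = x := Nat.div_add_mod' x n
      have h4 := h.mem_adj ⟨x / n, h1⟩ ⟨x % n, h2⟩
      have h5 := h.mem_not_adj ⟨x / n, h1⟩ ⟨x % n, h2⟩
      simp only [h3] at h4 h5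
      unfold gm
      split_ifs with hc
      · obtain ⟨_, _, hc⟩ := hc
        exact h4 hc
      · exact h5 fun hadj => hc ⟨h1, h2, hadj⟩
    · exact h.mem_rest x (by omega)

/-- There are one program `P` of the random access machine and a constant `C` such that for all
`n ≥ 2` and all connected chordal graphs `G` on `n` vertices the machine, started on the
adjacency matrix of `G`, stops after at most `C n ^ 2` steps with the broadcast domination number
of `G` in register `0`, all numbers in the registers and in the memory being at most `C n ^ 2`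
during the whole computation. -/
theorem result : ∃ (P : List Instr) (C : ℕ), ∀ (n : ℕ), 2 ≤ n →
    ∀ (G : SimpleGraph (Fin n)), G.Connected → Chordal G →
    ∀ s : Cfg, IsInput G s →
      ∃ t, t ≤ C * n ^ 2 ∧ Halted P (runs P t s) ∧ (runs P t s).reg 0 = gammaB G ∧
        ∀ t', t' ≤ t → ∀ x, (runs P t' s).reg x ≤ C * n ^ 2 ∧ (runs P t' s).mem x ≤ C * n ^ 2 := by
  obtain ⟨C, hC⟩ := comp Prog.program Prog.vM 56 ids_program (by decide) ldepth_program
  refine ⟨compP 56 Prog.vM Prog.program, C, ?_⟩
  intro n hn G hG hch s hs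
  rw [hs.eq_init (by omega)]
  obtain ⟨t, h1, h2, h3, h4⟩ := hC n (by omega) (gm G) (fun i j => by
    unfold gm
    split_ifs <;> omega)
  exact ⟨t, h1, h2, by rw [h3]; exact alg n G hn hG hch, h4⟩

end Pool.Agent.Results.MP_a3b01d_lc.QuadraticBroadcast
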